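import Pool.Agent.H86.CMLib.W528.Odd.Stms

/-!
# Project OT: the rank of an extremal element divides the rank of all square-zero elements
-/

set_option autoImplicit false

namespace Pool.Agent.W806.OT.DIV

open Module Pool.Agent.W528.Odd

section rk

variable {K : Type} [Field K] {V : Type} [AddCommGroup V] [Module K V] [FiniteDimensional K V]

/-- The rank. -/
noncomputable def rk (f : Module.End K V) : ℕ := finrank K (LinearMap.range f)

theorem rk_mul_left (f g : Module.End K V) : rk (f * g) ≤ rk f :=
  Submodule.finrank_mono (LinearMap.range_comp_le_range g f)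

theorem rk_mul_right (f g : Module.End K V) : rk (f * g) ≤ rk g := by
  unfold rk
  have h : LinearMap.range (f * g) = Submodule.map f (LinearMap.range g) :=
    LinearMap.range_comp g f
  rw [h]
  exact Submodule.finrank_map_le f _

theorem rk_smul_le (c : K) (f : Module.End K V) : rk (c • f) ≤ rk f := by
  have h : c • f = f * (c • 1) := by
    rw [mul_smul_comm, mul_one]
  rw [h]
  exact rk_mul_left _ _

theorem rk_zero : rk (0 : Module.End K V) = 0 := by
  unfold rk
  rw [LinearMap.range_zero, finrank_bot]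

theorem rk_pos {f : Module.End K V} (hf : f ≠ 0) : 0 < rk f := by
  unfold rk
  rw [Nat.pos_iff_ne_zero]
  intro h
  rw [Submodule.finrank_eq_zero] at h
  exact hf (LinearMap.range_eq_bot.1 h)

theorem rk_add {n z p : Module.End K V} (hp : p * p = p) (hz : p * n = z)
    (h1 : LinearMap.range z ≤ LinearMap.range n)
    (h2 : LinearMap.range (n - z) ≤ LinearMap.range n) : rk n = rk z + rk (n - z) := by
  have h3 : LinearMap.range z ⊔ LinearMap.range (n - z) = LinearMap.range n := by
    apply le_antisymm (sup_le h1 h2)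
    rintro _ ⟨v, rfl⟩
    have h4 : n v = z v + (n - z) v := by
      rw [LinearMap.sub_apply]
      abel
    rw [h4]
    exact Submodule.add_mem_sup ⟨v, rfl⟩ ⟨v, rfl⟩
  have h4 : LinearMap.range z ⊓ LinearMap.range (n - z) = ⊥ := by
    rw [eq_bot_iff]
    rintro u ⟨⟨a, ha⟩, b, hb⟩
    have h5 : p * z = z := by
      rw [← hz, ← mul_assoc, hp]
    have h6 : p * (n - z) = 0 := by
      rw [mul_sub, h5, hz, sub_self]
    have h7 : p u = u := by
      rw [← ha]
      exact LinearMap.congr_fun h5 a
    have h8 : p u = 0 := by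
      rw [← hb]
      exact LinearMap.congr_fun h6 b
    rw [Submodule.mem_bot, ← h7, h8]
  have h5 := Submodule.finrank_sup_add_finrank_inf_eq (LinearMap.range z)
    (LinearMap.range (n - z))
  rw [h3, h4, finrank_bot, add_zero] at h5
  exact h5

end rk

theorem main : Pool.Agent.W528.Odd.Div := by
  intro K _ _ _ V _ _ _ G _ r 𝔥 hS e he hee hext hno n hn hnn
  change rk e ∣ rk n
  induction hk : rk n using Nat.strong_induction_on generalizing n with
  | _ k ih =>
  by_cases hn0 : n = 0
  · subst hn0
    rw [← hk, rk_zero]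
    exact dvd_zero _
  obtain ⟨g, hg⟩ : ∃ g, LinearMap.trace K V (n * (r g * e * r g⁻¹)) ≠ 0 := by
    by_contra hcon
    push Not at hcon
    exact hn0 (hno n (Submodule.subset_span ⟨hn, hnn⟩) hcon)
  have hg1 : r g * r g⁻¹ = 1 := by rw [← map_mul, mul_inv_cancel, map_one]
  have hg2 : r g⁻¹ * r g = 1 := by rw [← map_mul, inv_mul_cancel, map_one]
  set e' : Module.End K V := r g * e * r g⁻¹ with he'
  have he'h : e' ∈ 𝔥 := hS.conj g e he
  have he'x : ∀ x ∈ 𝔥, ∃ c : K, e' * x * e' = c • e' := by
    intro x hx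
    have h1 := hS.conj g⁻¹ x hx
    rw [inv_inv] at h1
    obtain ⟨c, hc⟩ := hext _ h1
    refine ⟨c, ?_⟩
    have h2 : e' * x * e' = r g * (e * (r g⁻¹ * x * r g) * e) * r g⁻¹ := by
      rw [he']
      simp only [mul_assoc]
    rw [h2, hc, he', mul_smul_comm, smul_mul_assoc]
  have hrk' : rk e' = rk e := by
    apply le_antisymm
    · exact (rk_mul_left _ _).trans (rk_mul_right _ _)
    · have h1 : e = r g⁻¹ * e' * r g := by
        rw [he']
        calc e = (r g⁻¹ * r g) * e * (r g⁻¹ * r g) := by rw [hg2, one_mul, mul_one]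
          _ = r g⁻¹ * (r g * e * r g⁻¹) * r g := by simp only [mul_assoc]
      calc rk e = rk (r g⁻¹ * e' * r g) := by rw [← h1]
        _ ≤ rk e' := (rk_mul_left _ _).trans (rk_mul_right _ _)
  obtain ⟨c, hc⟩ := he'x n hn
  have hc0 : c ≠ 0 := by
    rintro rfl
    rw [zero_smul] at hc
    apply hg
    rw [LinearMap.trace_mul_comm]
    have h1 : IsNilpotent (e' * n) := by
      refine ⟨2, ?_⟩
      rw [pow_two]
      calc e' * n * (e' * n) = e' * n * e' * n := by simp only [mul_assoc]
        _ = 0 := by rw [hc, zero_mul]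
    exact (LinearMap.isNilpotent_trace_of_isNilpotent h1).eq_zero
  have he'0 : e' ≠ 0 := by
    intro h
    apply hg
    rw [h, mul_zero, map_zero]
  set e1 : Module.End K V := c⁻¹ • e' with he1
  have he1h : e1 ∈ 𝔥 := 𝔥.smul_mem _ he'h
  have hene : e1 * n * e1 = e1 := by
    rw [he1, smul_mul_assoc, smul_mul_assoc, mul_smul_comm, hc, smul_smul c⁻¹ c,
      inv_mul_cancel₀ hc0, one_smul]
  have hrk1 : rk e1 = rk e := by
    rw [← hrk']
    apply le_antisymm (rk_smul_le _ _)
    have h1 : e' = c • e1 := by rw [he1, smul_smul, mul_inv_cancel₀ hc0, one_smul]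
    calc rk e' = rk (c • e1) := by rw [← h1]
      _ ≤ rk e1 := rk_smul_le _ _
  set z : Module.End K V := n * e1 * n with hz
  have hzh : z ∈ 𝔥 := by
    have h1 := hS.br n hn _ (hS.br n hn e1 he1h)
    have h2 : z = (-(1 / 2 : K)) • (n * (n * e1 - e1 * n) - (n * e1 - e1 * n) * n) := by
      have h3 : n * (n * e1 - e1 * n) - (n * e1 - e1 * n) * n = (-2 : K) • z := by
        have h4 : n * (n * e1) = 0 := by rw [← mul_assoc, hnn, zero_mul]
        have h5 : e1 * n * n = 0 := by rw [mul_assoc, hnn, mul_zero]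
        rw [mul_sub, sub_mul, h4, h5, ← mul_assoc, ← hz, neg_smul, two_smul]
        abel
      rw [h3, smul_smul]
      norm_num
    rw [h2]
    exact 𝔥.smul_mem _ h1
  have hnz : n * z = 0 := by
    rw [hz, ← mul_assoc, ← mul_assoc, hnn, zero_mul, zero_mul]
  have hzn : z * n = 0 := by
    rw [hz, mul_assoc, hnn, mul_zero]
  have hzz : z * z = 0 := by
    nth_rewrite 1 [hz]
    rw [mul_assoc, hnz, mul_zero]
  have hsq : (n - z) * (n - z) = 0 := by
    rw [mul_sub, sub_mul, sub_mul, hnn, hzn, hnz, hzz]
    simp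
  have hrkz : rk z = rk e1 := by
    apply le_antisymm
    · rw [hz, mul_assoc]
      exact (rk_mul_right _ _).trans (rk_mul_left _ _)
    · have h1 : e1 = e1 * z * e1 := by
        rw [hz]
        calc e1 = e1 * n * e1 := hene.symm
          _ = (e1 * n * e1) * n * e1 := by rw [hene, hene]
          _ = e1 * (n * e1 * n) * e1 := by simp only [mul_assoc]
      calc rk e1 = rk (e1 * z * e1) := by rw [← h1]
        _ ≤ rk z := (rk_mul_left _ _).trans (rk_mul_right _ _)
  have hsum : rk n = rk z + rk (n - z) := by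
    apply rk_add (p := n * e1)
    · calc n * e1 * (n * e1) = n * (e1 * n * e1) := by simp only [mul_assoc]
        _ = n * e1 := by rw [hene]
    · rfl
    · rw [hz, mul_assoc]
      exact LinearMap.range_comp_le_range _ _
    · have h1 : n - z = n * (1 - e1 * n) := by
        rw [hz, mul_sub, mul_one, mul_assoc]
      rw [h1]
      exact LinearMap.range_comp_le_range _ _
  have he10 : e1 ≠ 0 := by
    rw [he1]
    exact smul_ne_zero (inv_ne_zero hc0) he'0
  have hpos := rk_pos he10
  have h1 := ih (rk (n - z)) (by omega) (n - z) (𝔥.sub_mem hn hzh) hsq rfl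
  rw [← hk, hsum, hrkz, hrk1]
  exact dvd_add dvd_rfl h1

end Pool.Agent.W806.OT.DIV
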